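import Pool.Agent.U259.UV.Two
import Pool.Agent.U259.UV.Ari
import Pool.Agent.U259.UB.Fin
import Pool.Agent.U259.PK.Fin

/-!
# The alternating sums of the blocks of wreath products
-/

set_option autoImplicit false
set_option linter.unusedSectionVars false

open scoped Classical BigOperators

noncomputable section

namespace Pool.Agent.U259.UV

open Pool.Agent.Y63.NV
open Pool.Agent.Y63.KR
open Pool.Agent.N20.KB
open Pool.Agent.N85.WM (Wr wrF BEq IsIdem wrF_inZ numWts)
open Pool.Agent.R674.KB (krq_iff)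
open Pool.Agent.U259.WP (SB SB_sep SB_zero Sep exists_sep NoDz noDz_of numDz_of Op1)
open Pool.Agent.U259.WD (gf gf_prod noDz_wr)
open Pool.Agent.U259.WQ (gp gp_coe gp_eval tot_rec navarro_top sb_mod)
open Pool.Agent.U259.UB (sep_prod noDz_prod exists_sep_wr)

variable {p : ℕ} [hp : Fact p.Prime] {F : Type} [Field F] [IsAlgClosed F]
  [CharP F p] (red : integralClosure ℤ ℂ →+* F)

/-- there is a group of order `N` in `X` and a block of positive defect with alternating sum `s` -/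
def Tot (p : ℕ) {F : Type} [Field F] (red : integralClosure ℤ ℂ →+* F)
    (X : ∀ (G : Type) [Group G], Prop) (N : ℕ) (s : ℤ) : Prop :=
  ∃ (G : Type) (_ : Group G) (_ : Finite G), X G ∧ Nat.card G = N ∧
    ∃ (B : (G → F) → F) (e : G → F), IsBlock B ∧ Sep B e ∧ NoDz p red e ∧ aB red p G e 1 = s

variable {X : ∀ (G : Type) [Group G], Prop}

theorem tot_pos {N : ℕ} {s : ℤ} (h : Tot p red X N s) : 0 < N := by
  obtain ⟨G, _, _, -, rfl, -⟩ := h
  exact Nat.card_pos

theorem tot_wr (q : ℕ) [hq : Fact q.Prime]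
    (hw : ∀ (G : Type) [Group G] [Finite G], X G → X (Wr q G)) {N : ℕ} {s : ℤ}
    (h : Tot p red X N s) : ∃ s' : ℤ, Tot p red X (N ^ q * q) s' ∧
      (q : ℤ) * s' = s ^ q + (if q = p then -1 else (q : ℤ) ^ 2 - 1) * s := by
  have : NeZero q := ⟨hq.out.ne_zero⟩
  obtain ⟨G, _, _, hG, rfl, B, e, hB, hs, hno, rfl⟩ := h
  obtain ⟨B', hB', hs'⟩ := exists_sep_wr (p := p) (q := q) red hs hB
    (Or.inr (two_of_noDz red hs hB hno))
  refine ⟨_, ⟨Wr q G, inferInstance, inferInstance, hw G hG, ?_, B', wrF q e, hB', hs',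
    noDz_wr (q := q) red hs.1 hno, rfl⟩, tot_rec (p := p) (q := q) red hs.1⟩
  rw [SemidirectProduct.card, Nat.card_fun, Nat.card_zmod, Nat.card_congr Multiplicative.toAdd,
    Nat.card_zmod]

theorem aB_prod {G H : Type} [Group G] [Group H] [Finite G] [Finite H] {e : G → F} {e' : H → F}
    (he : IsIdem e) (he' : IsIdem e') :
    aB red p (G × H) (fun x : G × H => e x.1 * e' x.2) 1 = aB red p G e 1 * aB red p H e' 1 := by
  have h1 := gf_prod (p := p) red he he'.cl
  rw [← gp_coe, ← gp_coe, ← gp_coe, ← Polynomial.coe_mul] at h1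
  have h2 := Polynomial.coe_injective ℤ h1
  rw [← gp_eval, ← gp_eval, ← gp_eval, h2, Polynomial.eval_mul]

theorem tot_prod (hm : ∀ (G H : Type) [Group G] [Group H] [Finite G] [Finite H],
    X G → X H → X (G × H)) {N N' : ℕ} {s s' : ℤ}
    (h : Tot p red X N s) (h' : Tot p red X N' s') : Tot p red X (N * N') (s * s') := by
  obtain ⟨G, _, _, hG, rfl, B, e, hB, hs, hno, rfl⟩ := h
  obtain ⟨G', _, _, hG', rfl, B', e', hB', hs', hno', rfl⟩ := h'
  obtain ⟨B'', hB'', hs''⟩ := sep_prod red hs hB hs' hB'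
  exact ⟨G × G', inferInstance, inferInstance, hm G G' hG hG', Nat.card_prod _ _, B'', _, hB'',
    hs'', noDz_prod red hs.1 hs'.1 hno, aB_prod red hs.1 hs'.1⟩

theorem tot_init {G : Type} [Group G] [Finite G] (hG : X G) {B : (G → F) → F} (hB : IsBlock B)
    (hz : numDzBlock p red B = 0) : Tot p red X (Nat.card G) (SB p red B) := by
  obtain ⟨e, hs⟩ := exists_sep hB
  exact ⟨G, inferInstance, inferInstance, hG, rfl, B, e, hB, hs, noDz_of red hs hz,
    (SB_sep red hs).symm⟩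

theorem tot_out {N : ℕ} {s : ℤ} (hs0 : s ≠ 0) (h : Tot p red X N s) :
    ∃ (G : Type) (_ : Group G) (_ : Finite G), X G ∧ Nat.card G = N ∧ Op1 p G ∧
      ∃ B : (G → F) → F, IsBlock B ∧ numDzBlock p red B = 0 ∧ SB p red B = s := by
  obtain ⟨G, _, _, hG, hN, B, e, hB, hs, hno, h1⟩ := h
  have h2 : SB p red B = s := by rw [SB_sep red hs, h1]
  refine ⟨G, inferInstance, inferInstance, hG, hN, ?_, B, hB, numDz_of red hs.1.cl hs.2.1 hno, h2⟩
  by_contra ho
  exact hs0 (h2.symm.trans (SB_zero red ho B hB))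

theorem tot_sq (hm : ∀ (G H : Type) [Group G] [Group H] [Finite G] [Finite H],
    X G → X H → X (G × H)) {N : ℕ} {s : ℤ} (h : Tot p red X N s) (n : ℕ) :
    Tot p red X (N ^ 2 ^ n) (s ^ 2 ^ n) := by
  induction n with
  | zero => simpa using h
  | succ n ih =>
    have h1 := tot_prod red hm ih ih
    rw [← mul_pow, ← mul_pow, ← pow_two, ← pow_two, ← pow_mul, ← pow_mul, ← pow_succ'] at h1
    exact h1

/-- growth -/
theorem no_growth (q : ℕ) [hq : Fact q.Prime] (hqp : q ≠ p)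
    (hw : ∀ (G : Type) [Group G] [Finite G], X G → X (Wr q G))
    (hm : ∀ (G H : Type) [Group G] [Group H] [Finite G] [Finite H], X G → X H → X (G × H))
    {N : ℕ} {s : ℤ} (h : Tot p red X N s) (hs : s ≠ 0)
    (hb : ∀ ε : ℝ, 0 < ε → ∃ c : ℝ, ∀ (N' : ℕ) (s' : ℤ), Tot p red X N' s' → s' ≠ 0 →
      (s' : ℝ) ≤ c * (N' : ℝ) ^ ε) : False := by
  have h1 := tot_prod red hm h h
  obtain ⟨s2, h2, h3⟩ := tot_wr red q hw h1
  rw [if_neg hqp] at h3
  have hy : 1 ≤ s * s := by
    have := mul_self_pos.2 hs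
    omega
  have hq2 : (2 : ℤ) ≤ q := by exact_mod_cast hq.out.two_le
  have hs2 : 2 ≤ s2 := by
    have h4 : (q : ℤ) * q ≤ q * s2 := by
      rw [h3]
      have h5 : (1 : ℤ) ≤ (s * s) ^ q := one_le_pow₀ hy
      have h6 : ((q : ℤ) ^ 2 - 1) * 1 ≤ ((q : ℤ) ^ 2 - 1) * (s * s) :=
        mul_le_mul_of_nonneg_left hy (by nlinarith)
      nlinarith
    have h5 : (q : ℤ) ≤ s2 := le_of_mul_le_mul_left h4 (by linarith)
    linarith
  have hM := tot_pos red h2
  have h4 : (s2 : ℝ) ≤ 1 := by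
    refine Pool.Agent.U259.PK.growth (M := ((N * N) ^ q * q : ℕ)) one_pos
      (by exact_mod_cast hM) fun ε hε => ?_
    obtain ⟨c, hc⟩ := hb ε hε
    refine ⟨c, fun n => ?_⟩
    have h5 := hc _ _ (tot_sq red hm h2 n) (pow_ne_zero _ (by omega))
    rw [one_pow, mul_one]
    push_cast at h5 ⊢
    exact h5
  have h5 : s2 ≤ 1 := by exact_mod_cast h4
  omega

/-- from the alternating sums to the weight conjecture -/
theorem bawc_of_sb (hX : Closed p X)
    (h : ∀ (G : Type) [Group G] [Finite G], X G → ∀ B : (G → F) → F, IsBlock B →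
      numDzBlock p red B = 0 → SB p red B = 0)
    (Γ : Type) [Group Γ] [Finite Γ] (hΓ : X Γ) : BAWC p red Γ := by
  rw [bawc_iff]
  refine navarro_top red X hX (fun H _ _ hH _ => ?_) Γ hΓ
  rw [← krq_iff]
  intro B hB hno
  refine h H hH B hB ?_
  unfold numDzBlock
  rw [Nat.card_eq_zero]
  left
  constructor
  rintro ⟨χ, hχ, hχB⟩
  exact hno χ hχ hχB

/-- and back -/
theorem sb_of_bawc (hX : Closed p X)
    (h : ∀ (G : Type) [Group G] [Finite G], X G → BAWC p red G)
    (G : Type) [Group G] [Finite G] (hG : X G) (B : (G → F) → F) (hB : IsBlock B)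
    (hz : numDzBlock p red B = 0) : SB p red B = 0 := by
  have h1 : ((0 : ℕ) : ℤ) ∣ SB p red B := sb_mod red (fun σ _ B' hB' => by
    have e : numIrrBlock B' = numWts p red B' := h (chainStabilizer σ) (hX.sub G hG _) B' hB'
    rw [e]) hB hz
  rw [Nat.cast_zero] at h1
  exact zero_dvd_iff.1 h1

/-- the values are closed under the recursions -/
theorem clV (hw : ∀ (q : ℕ) [Fact q.Prime] (G : Type) [Group G] [Finite G], X G → X (Wr q G))
    (hm : ∀ (G H : Type) [Group G] [Group H] [Finite G] [Finite H], X G → X H → X (G × H)) :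
    ClV p (fun s => ∃ N, Tot p red X N s) where
  mul := by
    rintro a b ⟨N, h⟩ ⟨N', h'⟩
    exact ⟨_, tot_prod red hm h h'⟩
  rho := by
    rintro q hq a ⟨N, h⟩
    have : Fact q.Prime := ⟨hq⟩
    obtain ⟨s', h1, h2⟩ := tot_wr red q (fun G _ _ hG => hw q G hG) h
    exact ⟨s', ⟨_, h1⟩, h2⟩

end Pool.Agent.U259.UV
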