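import Pool.Agent.U259.UV.Arw
import Pool.Agent.U259.UV.Tot
import Pool.Agent.U259.GF.Main

/-!
# The first nonzero Dade sum of a block
-/

set_option autoImplicit false
set_option linter.unusedSectionVars false

open scoped Classical BigOperators

noncomputable section

namespace Pool.Agent.U259.UV

open Pool.Agent.Y63.NV
open Pool.Agent.Y63.KR
open Pool.Agent.N20.KB
open Pool.Agent.N85.WM (Wr wrF BEq IsIdem wrF_inZ numWts)
open Pool.Agent.U259.WP (Sep exists_sep NoDz noDz_of numDz_of Op1)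
open Pool.Agent.U259.WD (gf rhs series gf_prod SBd sbd_sep sbd_zero noDz_wr)
open Pool.Agent.U259.UB (sep_prod noDz_prod exists_sep_wr Fst fst_mul coeff_pow_zero)

theorem fst_pow {f : PowerSeries ℤ} {d : ℕ} {s : ℤ} (hf : Fst f d s) (n : ℕ) :
    Fst (f ^ n) (d * n) (s ^ n) := by
  induction n with
  | zero =>
    rw [pow_zero, pow_zero, mul_zero]
    exact ⟨fun i hi => absurd hi (Nat.not_lt_zero i), by simp⟩
  | succ n ih =>
    rw [pow_succ, pow_succ, Nat.mul_succ]
    exact fst_mul ih hf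

theorem fst_q {p q : ℕ} (hq : q.Prime) (hqp : q ≠ p) {f g : PowerSeries ℤ} {d : ℕ} {s : ℤ}
    (h : PowerSeries.C (q : ℤ) * g = rhs p q f) (hf : Fst f d s) :
    ∃ s' : ℤ, (q : ℤ) * s' = s ^ q + ((q : ℤ) ^ 2 - 1) * s ∧ Fst g (d * q) s' := by
  have hq0 : (q : ℤ) ≠ 0 := by exact_mod_cast hq.ne_zero
  have key : ∀ i, (q : ℤ) * PowerSeries.coeff i g = PowerSeries.coeff i (f ^ q) +
      ((q : ℤ) ^ 2 - 1) * (if q ∣ i then PowerSeries.coeff (i / q) f else 0) := by
    intro i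
    rw [← PowerSeries.coeff_C_mul, h]
    unfold rhs
    rw [if_neg hqp, map_add, PowerSeries.coeff_C_mul, PowerSeries.coeff_mk]
  refine ⟨PowerSeries.coeff (d * q) g, ?_, fun i hi => ?_, rfl⟩
  · rw [key, (fst_pow hf q).2, if_pos (dvd_mul_left _ _), Nat.mul_div_cancel _ hq.pos, hf.2]
  · have h1 := key i
    rw [(fst_pow hf q).1 i hi] at h1
    have h2 : (if q ∣ i then PowerSeries.coeff (i / q) f else 0) = 0 := by
      split_ifs with h3
      · refine hf.1 _ ?_
        rw [Nat.div_lt_iff_lt_mul hq.pos]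
        exact hi
      · rfl
    rw [h2, mul_zero, add_zero] at h1
    exact (mul_eq_zero.1 h1).resolve_left hq0

variable {p : ℕ} [hp : Fact p.Prime] {F : Type} [Field F] [IsAlgClosed F]
  [CharP F p] (red : integralClosure ℤ ℂ →+* F)

/-- there is a group of order `N` in `X` and a block of positive defect with lowest coefficient `s` -/
def Lw (p : ℕ) {F : Type} [Field F] (red : integralClosure ℤ ℂ →+* F)
    (X : ∀ (G : Type) [Group G], Prop) (N : ℕ) (s : ℤ) : Prop :=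
  ∃ (G : Type) (_ : Group G) (_ : Finite G), X G ∧ Nat.card G = N ∧
    ∃ (B : (G → F) → F) (e : G → F), IsBlock B ∧ Sep B e ∧ NoDz p red e ∧
      ∃ d, Fst (gf p red G e) d s

variable {X : ∀ (G : Type) [Group G], Prop}

theorem lw_pos {N : ℕ} {s : ℤ} (h : Lw p red X N s) : 0 < N := by
  obtain ⟨G, _, _, -, rfl, -⟩ := h
  exact Nat.card_pos

theorem lw_wr (q : ℕ) [hq : Fact q.Prime] (hqp : q ≠ p)
    (hw : ∀ (G : Type) [Group G] [Finite G], X G → X (Wr q G)) {N : ℕ} {s : ℤ}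
    (h : Lw p red X N s) : ∃ s' : ℤ, Lw p red X (N ^ q * q) s' ∧
      (q : ℤ) * s' = s ^ q + ((q : ℤ) ^ 2 - 1) * s := by
  have : NeZero q := ⟨hq.out.ne_zero⟩
  obtain ⟨G, _, _, hG, rfl, B, e, hB, hs, hno, d, hd⟩ := h
  obtain ⟨B', hB', hs'⟩ := exists_sep_wr (p := p) (q := q) red hs hB
    (Or.inr (two_of_noDz red hs hB hno))
  obtain ⟨s', h1, h2⟩ := fst_q hq.out hqp (series (p := p) (q := q) red hs.1) hd
  refine ⟨s', ⟨Wr q G, inferInstance, inferInstance, hw G hG, ?_, B', wrF q e, hB', hs',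
    noDz_wr (q := q) red hs.1 hno, _, h2⟩, h1⟩
  rw [SemidirectProduct.card, Nat.card_fun, Nat.card_zmod, Nat.card_congr Multiplicative.toAdd,
    Nat.card_zmod]

theorem lw_prod (hm : ∀ (G H : Type) [Group G] [Group H] [Finite G] [Finite H],
    X G → X H → X (G × H)) {N N' : ℕ} {s s' : ℤ}
    (h : Lw p red X N s) (h' : Lw p red X N' s') : Lw p red X (N * N') (s * s') := by
  obtain ⟨G, _, _, hG, rfl, B, e, hB, hs, hno, d, hF⟩ := h
  obtain ⟨G', _, _, hG', rfl, B', e', hB', hs', hno', d', hF'⟩ := h'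
  obtain ⟨B'', hB'', hs''⟩ := sep_prod red hs hB hs' hB'
  refine ⟨G × G', inferInstance, inferInstance, hm G G' hG hG', Nat.card_prod _ _, B'', _, hB'',
    hs'', noDz_prod red hs.1 hs'.1 hno, d + d', ?_⟩
  rw [gf_prod red hs.1 hs'.1.cl]
  exact fst_mul hF hF'

theorem lw_init {G : Type} [Group G] [Finite G] (hG : X G) {B : (G → F) → F} (hB : IsBlock B)
    (hz : numDzBlock p red B = 0) {d : ℕ} (hd : SBd p red d B ≠ 0) :
    ∃ (N : ℕ) (s : ℤ), s ≠ 0 ∧ Lw p red X N s := by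
  obtain ⟨e, hs⟩ := exists_sep hB
  have hc : ∀ i, PowerSeries.coeff i (gf p red G e) = SBd p red i B := by
    intro i
    rw [sbd_sep red hs]
    unfold Pool.Agent.U259.WD.gf
    rw [PowerSeries.coeff_mk]
  have hex : ∃ i, SBd p red i B ≠ 0 := ⟨d, hd⟩
  refine ⟨_, _, Nat.find_spec hex, G, inferInstance, inferInstance, hG, rfl, B, e, hB, hs,
    noDz_of red hs hz, Nat.find hex, fun i hi => ?_, hc _⟩
  rw [hc]
  have := Nat.find_min hex hi
  push Not at this
  exact this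

theorem lw_out {N : ℕ} {s : ℤ} (hs0 : s ≠ 0) (h : Lw p red X N s) :
    ∃ (G : Type) (_ : Group G) (_ : Finite G), X G ∧ Nat.card G = N ∧ Op1 p G ∧
      ∃ B : (G → F) → F, IsBlock B ∧ numDzBlock p red B = 0 ∧
        ∃ d, (∀ i < d, SBd p red i B = 0) ∧ SBd p red d B = s := by
  obtain ⟨G, _, _, hG, hN, B, e, hB, hs, hno, d, hF⟩ := h
  have hc : ∀ i, PowerSeries.coeff i (gf p red G e) = SBd p red i B := by
    intro i
    rw [sbd_sep red hs]
    unfold Pool.Agent.U259.WD.gf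
    rw [PowerSeries.coeff_mk]
  have h1 : SBd p red d B = s := by rw [← hc, hF.2]
  refine ⟨G, inferInstance, inferInstance, hG, hN, ?_, B, hB, numDz_of red hs.1.cl hs.2.1 hno, d,
    fun i hi => by rw [← hc, hF.1 i hi], h1⟩
  by_contra ho
  exact hs0 (h1.symm.trans (sbd_zero red ho B hB d))

theorem clW (hw : ∀ (q : ℕ) [Fact q.Prime] (G : Type) [Group G] [Finite G], q ≠ p → X G → X (Wr q G))
    (hm : ∀ (G H : Type) [Group G] [Group H] [Finite G] [Finite H], X G → X H → X (G × H)) :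
    ClW p (fun s => ∃ N, Lw p red X N s) where
  mul := by
    rintro a b ⟨N, h⟩ ⟨N', h'⟩
    exact ⟨_, lw_prod red hm h h'⟩
  rho := by
    rintro q hq hqp a ⟨N, h⟩
    have : Fact q.Prime := ⟨hq⟩
    obtain ⟨s', h1, h2⟩ := lw_wr red q hqp (fun G _ _ hG => hw q G hqp hG) h
    exact ⟨s', ⟨_, h1⟩, h2⟩

/-- Dade's invariant conjecture for cyclic quotients and the vanishing of the sums -/
theorem cyc_zero : (∀ (E : Type) [Group E] [Finite E] (G : Subgroup E) [G.Normal],
      IsCyclic (E ⧸ G) → Pool.Agent.N20.DI.DadeInv p red G) ↔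
    ∀ (G : Type) [Group G] [Finite G], Op1 p G → ∀ B : (G → F) → F, IsBlock B →
      numDzBlock p red B = 0 → ∀ d, SBd p red d B = 0 := by
  have h := Pool.Agent.U259.GF.rt_adm p
  have h1 := Pool.Agent.U259.GF.cyc_iff red h
  have h2 := Pool.Agent.U259.GF.ord_iff red h (fun _ _ => True) fun _ _ _ _ => trivial
  rw [h1]
  constructor
  · intro h3 G _ _
    exact h2.2 (fun G _ _ _ => h3 G) G trivial
  · intro h3 G _ _
    exact h2.1 (fun G _ _ _ => h3 G) G trivial

end Pool.Agent.U259.UV
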