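import Pool.Agent.U259.WQ.Main

/-!
# Sets of integers closed under products and the wreath recursions
-/

set_option autoImplicit false

namespace Pool.Agent.U259.UV

/-- closed under products and the recursions of the wreath products -/
structure ClW (p : ℕ) (V : ℤ → Prop) : Prop where
  mul : ∀ a b : ℤ, V a → V b → V (a * b)
  rho : ∀ q : ℕ, q.Prime → q ≠ p → ∀ a : ℤ, V a →
    ∃ b : ℤ, V b ∧ (q : ℤ) * b = a ^ q + ((q : ℤ) ^ 2 - 1) * a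

variable {p : ℕ} {V : ℤ → Prop}

theorem ClW.pow (h : ClW p V) {a : ℤ} (ha : V a) {n : ℕ} (hn : 0 < n) : V (a ^ n) := by
  obtain ⟨m, rfl⟩ : ∃ m, n = m + 1 := ⟨n - 1, by omega⟩
  clear hn
  induction m with
  | zero => simpa using ha
  | succ m ih =>
    rw [pow_succ]
    exact h.mul _ _ ih ha

/-- a member prime to `r` -/
theorem ClW.cop (h : ClW p V) {r : ℕ} (hr : r.Prime) (hrp : r ≠ p) (j : ℕ) :
    ∀ s : ℤ, V s → ¬ (r : ℤ) ^ (j + 1) ∣ s → ∃ v : ℤ, V v ∧ ¬ (r : ℤ) ∣ v := by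
  induction j with
  | zero =>
    intro s hs h1
    exact ⟨s, hs, by simpa using h1⟩
  | succ j ih =>
    intro s hs h1
    by_cases h2 : (r : ℤ) ^ (j + 1) ∣ s
    · obtain ⟨b, hb, h3⟩ := h.rho r hr hrp s hs
      refine ih b hb fun h4 => h1 ?_
      exact Pool.Agent.U259.WQ.step_arith hr (Nat.succ_le_succ (Nat.zero_le j)) (Or.inr rfl)
        h3 h2 h4
    · exact ih s hs h2

/-- a member congruent to one -/
theorem ClW.one (h : ClW p V) {r : ℕ} (hr : r.Prime) (hrp : r ≠ p) {s : ℤ} (hs : V s) (hs0 : s ≠ 0) (K : ℕ) :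
    ∃ x : ℤ, V x ∧ x ≡ 1 [ZMOD (r : ℤ) ^ K] := by
  obtain ⟨j, hj⟩ : ∃ j : ℕ, ¬ (r : ℤ) ^ (j + 1) ∣ s := by
    by_contra hcon
    push Not at hcon
    have h1 := Int.natAbs_dvd_natAbs.2 (hcon s.natAbs)
    rw [Int.natAbs_pow, Int.natAbs_natCast] at h1
    have h2 := Nat.le_of_dvd (Int.natAbs_pos.2 hs0) h1
    have h3 : s.natAbs < r ^ s.natAbs := Nat.lt_pow_self hr.one_lt
    have h4 : r ^ s.natAbs ≤ r ^ (s.natAbs + 1) := Nat.pow_le_pow_right hr.pos (Nat.le_succ _)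
    omega
  obtain ⟨v, hv, hrv⟩ := h.cop hr hrp j s hs hj
  refine ⟨v ^ Nat.totient (r ^ K), h.pow hv (Nat.totient_pos.2 (pow_pos hr.pos K)), ?_⟩
  have hc : IsCoprime v ((r ^ K : ℕ) : ℤ) := by
    push_cast
    refine IsCoprime.pow_right ?_
    exact ((Nat.prime_iff_prime_int.1 hr).irreducible.coprime_iff_not_dvd.2 hrv).symm
  have h1 := ZMod.pow_totient (ZMod.unitOfIsCoprime v hc)
  have h2 := congrArg (fun u : (ZMod (r ^ K))ˣ => (u : ZMod (r ^ K))) h1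
  beta_reduce at h2
  rw [Units.val_pow_eq_pow_val, ZMod.coe_unitOfIsCoprime, Units.val_one] at h2
  have h3 : ((v ^ Nat.totient (r ^ K) : ℤ) : ZMod (r ^ K)) = ((1 : ℤ) : ZMod (r ^ K)) := by
    push_cast
    exact h2
  have h4 := (ZMod.intCast_eq_intCast_iff _ _ _).1 h3
  push_cast at h4
  exact h4

/-- the recursion at a member congruent to one -/
theorem ClW.step (h : ClW p V) {r : ℕ} (hr : r.Prime) (hrp : r ≠ p) {l : ℕ} (hl : l.Prime) (hlp : l ≠ p)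
    {s : ℤ} (hs : V s) (hs0 : s ≠ 0) (K : ℕ) :
    ∃ x : ℤ, V x ∧ x ≡ l [ZMOD (r : ℤ) ^ K] := by
  obtain ⟨x, hx, h1⟩ := h.one hr hrp hs hs0 (K + 1)
  obtain ⟨b, hb, h2⟩ := h.rho l hl hlp x hx
  refine ⟨b, hb, ?_⟩
  have h3 : (l : ℤ) * b ≡ l * l [ZMOD (r : ℤ) ^ (K + 1)] := by
    rw [h2]
    have h4 : x ^ l + ((l : ℤ) ^ 2 - 1) * x ≡ 1 ^ l + ((l : ℤ) ^ 2 - 1) * 1
        [ZMOD (r : ℤ) ^ (K + 1)] := (h1.pow l).add (h1.mul_left _)
    have h5 : (1 : ℤ) ^ l + ((l : ℤ) ^ 2 - 1) * 1 = l * l := by ring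
    rwa [h5] at h4
  have h4 : (r : ℤ) ^ (K + 1) ∣ (l : ℤ) * (l - b) := by
    have := h3.dvd
    rwa [← mul_sub] at this
  have h5 : (r : ℤ) ^ K ∣ (l : ℤ) - b := by
    by_cases hlr : l = r
    · subst hlr
      rw [pow_succ'] at h4
      exact Int.dvd_of_mul_dvd_mul_left (by exact_mod_cast hl.ne_zero) h4
    · have hc : IsCoprime ((r : ℤ) ^ K) (l : ℤ) := by
        refine IsCoprime.pow_left ?_
        exact_mod_cast (Nat.isCoprime_iff_coprime.2 ((Nat.coprime_primes hr hl).2 (Ne.symm hlr)))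
      exact hc.dvd_of_dvd_mul_left ((pow_dvd_pow _ (Nat.le_succ K)).trans h4)
  exact (Int.modEq_iff_dvd.2 h5)

/-- positive integers prime to `p` -/
theorem ClW.nat (h : ClW p V) {r : ℕ} (hr : r.Prime) (hrp : r ≠ p) {s : ℤ} (hs : V s) (hs0 : s ≠ 0) (K : ℕ)
    (c : ℕ) : 0 < c → ¬ p ∣ c → ∃ x : ℤ, V x ∧ x ≡ c [ZMOD (r : ℤ) ^ K] := by
  induction c using Nat.recOnMul with
  | zero => intro h0; exact absurd h0 (lt_irrefl 0)
  | one =>
    intro _ _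
    obtain ⟨x, hx, h1⟩ := h.one hr hrp hs hs0 K
    exact ⟨x, hx, by simpa using h1⟩
  | prime l hl =>
    intro _ hpl
    exact h.step hr hrp hl (by rintro rfl; exact hpl dvd_rfl) hs hs0 K
  | mul a b iha ihb =>
    intro h0 hp
    obtain ⟨x, hx, h1⟩ := iha (Nat.pos_of_mul_pos_right h0) (fun h2 => hp (h2.mul_right b))
    obtain ⟨y, hy, h2⟩ := ihb (Nat.pos_of_mul_pos_left h0) (fun h2 => hp (h2.mul_left a))
    refine ⟨x * y, h.mul _ _ hx hy, ?_⟩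
    push_cast
    exact h1.mul h2

/-- residue classes modulo powers of `r ≠ p` -/
theorem ClW.res (hp : p.Prime) (h : ClW p V) {r : ℕ} (hr : r.Prime) (hrp : r ≠ p) {s : ℤ}
    (hs : V s) (hs0 : s ≠ 0) (K : ℕ) (c : ℤ) : ∃ x : ℤ, V x ∧ x ≡ c [ZMOD (r : ℤ) ^ K] := by
  have hcop : Nat.Coprime (r ^ K) p := Nat.Coprime.pow_left K ((Nat.coprime_primes hr hp).2 hrp)
  obtain ⟨n, hn⟩ := Nat.chineseRemainder hcop (c % (r : ℤ) ^ K).toNat 1
  have hK : (0 : ℤ) < (r : ℤ) ^ K := pow_pos (by exact_mod_cast hr.pos) K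
  have hpn : ¬ p ∣ n := by
    intro h1
    have h2 := hn.2
    have h3 : n ≡ 0 [MOD p] := (Nat.modEq_zero_iff_dvd).2 h1
    have h4 := (h3.symm.trans h2).symm
    exact hp.one_lt.ne' (Nat.dvd_one.1 ((Nat.modEq_zero_iff_dvd).1 h4))
  have hn0 : 0 < n := Nat.pos_of_ne_zero (by rintro rfl; exact hpn (dvd_zero p))
  obtain ⟨x, hx, h1⟩ := h.nat hr hrp hs hs0 K n hn0 hpn
  refine ⟨x, hx, h1.trans ?_⟩
  have h2 : (n : ℤ) ≡ ((c % (r : ℤ) ^ K).toNat : ℤ) [ZMOD ((r ^ K : ℕ) : ℤ)] :=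
    (Int.natCast_modEq_iff).2 hn.1
  rw [Int.toNat_of_nonneg (Int.emod_nonneg _ hK.ne')] at h2
  push_cast at h2
  exact h2.trans (Int.mod_modEq c _)

/-- **all residue classes modulo powers of `r ≠ p`** -/
theorem ClW.all (hp : p.Prime) (h : ClW p V) {r : ℕ} (hr : r.Prime) (hrp : r ≠ p) {s : ℤ}
    (hs : V s) (hs0 : s ≠ 0) (K : ℕ) (c : ℤ) :
    ∃ x : ℤ, V x ∧ x ≠ 0 ∧ x ≡ c [ZMOD (r : ℤ) ^ K] := by
  by_cases hc : (r : ℤ) ^ K ∣ c
  · obtain ⟨x, hx, h1⟩ := h.res hp hr hrp hs hs0 (K + 1) ((r : ℤ) ^ K)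
    refine ⟨x, hx, ?_, ?_⟩
    · rintro rfl
      have h2 : (r : ℤ) ^ (K + 1) ∣ (r : ℤ) ^ K := by
        have := h1.dvd
        rwa [sub_zero] at this
      have h3 : r ^ (K + 1) ∣ r ^ K := by exact_mod_cast h2
      have h4 := (Nat.pow_dvd_pow_iff_le_right hr.one_lt).1 h3
      omega
    · have h2 : x ≡ (r : ℤ) ^ K [ZMOD (r : ℤ) ^ K] :=
        h1.of_dvd (pow_dvd_pow _ (Nat.le_succ K))
      refine h2.trans (Int.modEq_iff_dvd.2 ?_)
      exact dvd_sub hc dvd_rfl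
  · obtain ⟨x, hx, h1⟩ := h.res hp hr hrp hs hs0 K c
    refine ⟨x, hx, ?_, h1⟩
    rintro rfl
    apply hc
    have := h1.dvd
    rwa [sub_zero] at this

end Pool.Agent.U259.UV
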