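import Pool.Agent.U259.UV.Tot
import Pool.Agent.Y63.NV.PeL

/-!
# Navarro's blockwise conjecture and the alternating sums
-/

set_option autoImplicit false

open scoped Classical

noncomputable section

namespace Pool.Agent.U259.UV

open Pool.Agent.Y63.NV
open Pool.Agent.Y63.AWC (pSubgroupSetoid)
open Pool.Agent.U259.WP (SB)

/-- Navarro's equalities for the extensions of the members of `X` by `p`-groups -/
def Nav (p : ℕ) {F : Type} [Field F] (red : integralClosure ℤ ℂ →+* F)
    (X : ∀ (Γ : Type) [Group Γ], Prop) : Prop :=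
  ∀ (Γ : Type) [Group Γ] [Finite Γ] (N G : Subgroup Γ) [N.Normal] [G.Normal], N ≤ G → X N →
    IsPGroup p (Γ ⧸ N) → ∀ B : (G → F) → F, IsBlock B → IsInvBlock G B →
      numIBr G B = ∑ᶠ c : Quotient (pSubgroupSetoid p Γ),
        if G ⊔ c.out.1 = ⊤ ∧ InDefect p G B c.out.1 then numDz p red G c.out.1 B else 0

theorem nav_sum (p : ℕ) [Fact p.Prime] {F : Type} [Field F] [IsAlgClosed F] [CharP F p]
    (red : integralClosure ℤ ℂ →+* F) {G : Type} [Group G] [Finite G] {B : (G → F) → F}
    (hB : IsBlock B) : (∑ᶠ c : Quotient (pSubgroupSetoid p G),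
        if (⊤ : Subgroup G) ⊔ c.out.1 = ⊤ ∧ InDefect p (⊤ : Subgroup G) (up B) c.out.1 then
          numDz p red (⊤ : Subgroup G) c.out.1 (up B) else 0) =
      Pool.Agent.N85.WM.numWts p red B := by
  unfold Pool.Agent.N85.WM.numWts
  refine finsum_congr fun c => ?_
  by_cases h2 : InDefect p (⊤ : Subgroup G) (up B) c.out.1
  · rw [if_pos ⟨top_sup_eq _, h2⟩, numDz_eq]
    rfl
  · rw [if_neg (fun h => h2 h.2)]
    by_contra h3
    refine h2 (wdef' p F red G ⊤ (up B) (up_block hB) (up_inv B) c.out.1 c.out.2 ?_)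
    rw [numDz_eq]
    exact fun h => h3 h.symm

variable {p : ℕ} [hp : Fact p.Prime] {F : Type} [Field F] [IsAlgClosed F]
  [CharP F p] (red : integralClosure ℤ ℂ →+* F) {X : ∀ (G : Type) [Group G], Prop}

/-- Navarro's equalities are equivalent to the vanishing of the alternating sums -/
theorem nav_iff (hX : Closed p X) : Nav p red X ↔
    ∀ (G : Type) [Group G] [Finite G], X G → ∀ B : (G → F) → F, IsBlock B →
      numDzBlock p red B = 0 → SB p red B = 0 := by
  constructor
  · intro h
    refine sb_of_bawc red hX fun G _ _ hG => ?_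
    intro B hB
    have h3 := h G ⊤ ⊤ le_rfl (hX.iso _ _ hG ⟨Subgroup.topEquiv.symm⟩) (pgroup_top p G)
      (up B) (up_block hB) (up_inv B)
    rw [nav_sum p red hB, numIBr_eq] at h3
    exact h3
  · intro h Γ _ _ N G _ _ hNG hN hp
    exact (block_strong (p := p) red X hX).1
      (fun H _ _ hH _ => (theta_iff p F red H ⊤).2 ((bawc_iff p red).1
        (bawc_of_sb red hX h H hH))) Γ N G hNG hN hp

end Pool.Agent.U259.UV
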