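import Pool.Agent.U259.UB.Main
import Pool.Agent.N20.CC

/-!
# Blocks of positive defect have at least two irreducible characters
-/

set_option autoImplicit false
set_option linter.unusedSectionVars false

open scoped Classical BigOperators

noncomputable section

namespace Pool.Agent.U259.UV

open Pool.Agent.Y63.NV
open Pool.Agent.Y63.AWC (IsIrreducibleCharacter)
open Pool.Agent.N85.WM.Wpi (toIrr ofIrr)
open Pool.Agent.N20.DI (HasDef)
open Pool.Agent.Y930.NV (redC_of)
open Pool.Agent.U259.WP (Sep NoDz)
open Pool.Agent.U259.UB (Two exists_theta)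

section val

/-- the valuation ring of a reduction -/
theorem exists_O (p : ℕ) [hp : Fact p.Prime] {F : Type} [Field F] [CharP F p]
    (red : integralClosure ℤ ℂ →+* F) : ∃ O : ValuationSubring ℂ, (p : ℂ) ∈ O.nonunits ∧
      ∀ a : integralClosure ℤ ℂ, (a : ℂ) ∈ O.nonunits → red a = 0 := by
  let A : Subring ℂ := (integralClosure ℤ ℂ).toSubring
  let r : A →+* F := red
  have hI : RingHom.ker r ≠ ⊤ := RingHom.ker_ne_top r
  obtain ⟨O, hO1, hO2⟩ := Ideal.image_subset_nonunits_valuationSubring (RingHom.ker r) hI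
  have hk : ∀ a : integralClosure ℤ ℂ, red a = 0 → (a : ℂ) ∈ O.nonunits := fun a ha =>
    hO2 ⟨(⟨a.1, a.2⟩ : A), ha, rfl⟩
  have hpi : IsIntegral ℤ (p : ℂ) := by
    have : IsIntegral ℤ ((p : ℤ) : ℂ) := isIntegral_algebraMap
    simpa using this
  have hp0 : red ⟨(p : ℂ), hpi⟩ = 0 := by
    have h1 : (⟨(p : ℂ), hpi⟩ : integralClosure ℤ ℂ) = ((p : ℕ) : integralClosure ℤ ℂ) := by
      apply Subtype.ext
      simp
    rw [h1, map_natCast, CharP.cast_eq_zero]
  refine ⟨O, hk _ hp0, fun a ha => ?_⟩
  by_contra hne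
  have hprime : (RingHom.ker red).IsPrime := RingHom.ker_isPrime red
  have hmax : (RingHom.ker red).IsMaximal := by
    have : Algebra.IsIntegral ℤ (integralClosure ℤ ℂ) := inferInstance
    refine Ideal.isMaximal_of_isIntegral_of_isMaximal_comap (R := ℤ) (RingHom.ker red) ?_
    have h2 : Ideal.comap (algebraMap ℤ (integralClosure ℤ ℂ)) (RingHom.ker red) =
        Ideal.span {(p : ℤ)} := by
      ext n
      rw [Ideal.mem_comap, RingHom.mem_ker, Ideal.mem_span_singleton]
      have h3 : red (algebraMap ℤ (integralClosure ℤ ℂ) n) = (n : F) := by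
        rw [eq_intCast (algebraMap ℤ (integralClosure ℤ ℂ)) n, map_intCast]
      rw [h3]
      exact CharP.intCast_eq_zero_iff F p n
    rw [h2]
    have hpz : Prime (p : ℤ) := Nat.prime_iff_prime_int.1 hp.out
    have := (Ideal.span_singleton_prime hpz.ne_zero).2 hpz
    exact IsPrime.to_maximal_ideal (by
      rw [Ne, Ideal.span_singleton_eq_bot]
      exact hpz.ne_zero)
  obtain ⟨b, i, hi, h4⟩ := hmax.exists_inv (x := a) (fun h => hne (RingHom.mem_ker.1 h))
  have h5 : (b : ℂ) * a + i = 1 := by
    have := congrArg Subtype.val h4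
    simpa using this
  have hb : (b : ℂ) ∈ O := hO1 b.2
  have h6 : O.valuation ((b : ℂ) * a + i) < 1 := by
    refine O.valuation.map_add_lt ?_ ?_
    · rw [map_mul]
      have h7 := (O.valuation_le_one_iff (b : ℂ)).2 hb
      have h8 := (O.mem_nonunits_iff).1 ha
      exact (mul_le_of_le_one_left' h7).trans_lt h8
    · exact (O.mem_nonunits_iff).1 (hk i (RingHom.mem_ker.1 hi))
  rw [h5, map_one] at h6
  exact lt_irrefl _ h6

end val

/-- a character vanishing on the `p`-singular elements has defect zero -/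
theorem hasDef_of_van {p : ℕ} [hp : Fact p.Prime] {G : Type} [Group G] [Finite G] {θ : G → ℂ}
    (hθ : IsIrreducibleCharacter θ) (h : ∀ x : G, p ∣ orderOf x → θ x = 0) : HasDef p 0 θ := by
  have _f : Fintype G := Fintype.ofFinite _
  obtain ⟨V, _, _, _, ρ, hρ, rfl⟩ := hθ
  let S : Sylow p G := default
  let P : Subgroup G := S
  have _f2 : Fintype P := Fintype.ofFinite _
  let σ : Representation ℂ P V := ρ.comp P.subtype
  have hne : (Fintype.card P : ℂ) ≠ 0 := by exact_mod_cast Fintype.card_ne_zero
  have _inv : Invertible (Fintype.card P : ℂ) := invertibleOfNonzero hne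
  have h1 := (Representation.isProj_averageMap σ).trace
  have h2 : (Fintype.card P : ℂ) * LinearMap.trace ℂ V (Representation.averageMap σ) =
      ρ.character 1 := by
    unfold Representation.averageMap GroupAlgebra.average
    rw [map_smul, map_smul, map_sum, map_sum, smul_eq_mul, mul_invOf_cancel_left']
    refine (Finset.sum_eq_single (1 : P) ?_ ?_).trans ?_
    · intro x _ hx
      rw [Representation.asAlgebraHom_of]
      change ρ.character (x : G) = 0
      apply h
      obtain ⟨k, hk⟩ := (IsPGroup.iff_orderOf.1 S.isPGroup') x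
      change orderOf x = p ^ k at hk
      rw [← Subgroup.orderOf_coe] at hk
      rw [hk]
      refine dvd_pow_self p ?_
      rintro rfl
      rw [pow_zero, orderOf_eq_one_iff] at hk
      exact hx (Subtype.ext hk)
    · intro h3
      exact absurd (Finset.mem_univ _) h3
    · rw [Representation.asAlgebraHom_of]
      change LinearMap.trace ℂ V (ρ _) = LinearMap.trace ℂ V (ρ 1)
      simp
  rw [h1] at h2
  have hθ' : IsIrreducibleCharacter ρ.character := ⟨V, _, _, inferInstance, ρ, hρ, rfl⟩
  set r := Module.finrank ℂ (Representation.invariants σ) with hr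
  have h3 : ρ.character 1 = ((Nat.card P * r : ℕ) : ℂ) := by
    rw [← h2, Nat.card_eq_fintype_card]
    push_cast
    rfl
  obtain ⟨m, hm⟩ := Pool.Agent.Y63.AWC.deg_dvd hθ' h3
  have hm0 : m ≠ 0 := by
    rintro rfl
    rw [mul_zero] at hm
    exact Nat.card_pos.ne' hm
  have hr0 : r ≠ 0 := by
    rintro h4
    rw [h4, mul_zero, zero_mul] at hm
    exact Nat.card_pos.ne' hm
  have hP : Nat.card P = p ^ (Nat.card G).factorization p := S.card_eq_multiplicity
  have h5 := congrArg (fun n => n.factorization p) hm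
  have h6 : (Nat.card P * r).factorization p = (Nat.card G).factorization p + r.factorization p := by
    rw [Nat.factorization_mul Nat.card_pos.ne' hr0, hP, Nat.factorization_pow]
    simp [hp.out.factorization_self]
  beta_reduce at h5
  rw [Nat.factorization_mul (mul_ne_zero Nat.card_pos.ne' hr0) hm0, Finsupp.add_apply, h6] at h5
  exact ⟨_, h3, by omega⟩

section two

variable {p : ℕ} [hp : Fact p.Prime] {F : Type} [Field F] [IsAlgClosed F] [CharP F p]
  (red : integralClosure ℤ ℂ →+* F) {G : Type} [Group G] [Finite G]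

/-- characters with congruent central characters -/
theorem cv_congr {O : ValuationSubring ℂ}
    (hO : ∀ a : integralClosure ℤ ℂ, (a : ℂ) ∈ O.nonunits → red a = 0) {χ θ : G → ℂ}
    (hχ : IsIrreducibleCharacter χ) (hθ : IsIrreducibleCharacter θ)
    (h : ∀ x : G, Pool.Agent.H254R3.IN.omega χ x - Pool.Agent.H254R3.IN.omega θ x ∈ O.nonunits)
    (f : G → F) : centralValue red χ f = centralValue red θ f := by
  unfold centralValue
  refine finsum_congr fun C => ?_
  congr 1
  have e1 : Nat.card C.carrier = Nat.card {y : G // IsConj C.out y} := by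
    refine Nat.card_congr (Equiv.subtypeEquivRight fun y => ?_)
    rw [ConjClasses.mem_carrier_iff_mk_eq, ← ConjClasses.mk_eq_mk_iff_isConj]
    have h1 : ConjClasses.mk C.out = C := Quotient.out_eq C
    rw [h1]
    exact eq_comm
  have i1 := Pool.Agent.H254R3.IN.IsIrr.omega_isIntegral (toIrr hχ) C.out
  have i2 := Pool.Agent.H254R3.IN.IsIrr.omega_isIntegral (toIrr hθ) C.out
  have h2 := hO ⟨_, i1.sub i2⟩ (h C.out)
  unfold Pool.Agent.H254R3.IN.omega at i1 i2
  rw [e1, redC_of red i1, redC_of red i2, ← sub_eq_zero, ← map_sub]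
  exact h2

/-- **blocks of positive defect have at least two irreducible characters** -/
theorem two_of_noDz {B : (G → F) → F} {e : G → F} (hs : Sep B e) (hB : IsBlock B)
    (hno : NoDz p red e) : Two red e := by
  have _f : Fintype G := Fintype.ofFinite _
  obtain ⟨θ, h1, h2⟩ := exists_theta red hs hB
  by_contra hT
  have huniq : ∀ χ : G → ℂ, IsIrreducibleCharacter χ → centralValue red χ e = 1 → χ = θ := by
    intro χ h3 h4
    by_contra hne
    exact hT ⟨χ, θ, h3, h1, hne, h4, h2⟩
  obtain ⟨O, hpO, hO⟩ := exists_O p red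
  have hBl : Pool.Agent.H254R3.IN.IsBlock O ({θ} : Set (G → ℂ)) := by
    refine ⟨θ, toIrr h1, ?_⟩
    ext χ
    constructor
    · rintro rfl
      refine ⟨toIrr h1, fun x => ?_⟩
      rw [sub_self]
      exact O.mem_nonunits_iff.2 (by rw [map_zero]; exact zero_lt_one)
    · rintro ⟨h3, h4⟩
      exact huniq χ (ofIrr h3) ((cv_congr red hO (ofIrr h3) h1 h4 e).trans h2)
  refine hno θ h1 (hasDef_of_van h1 fun x hx => ?_) h2
  have h5 := Pool.Agent.N20.blockCoeff_sing hpO hBl (x := x⁻¹) (by rwa [orderOf_inv])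
  unfold Pool.Agent.H254R3.IN.blockCoeff at h5
  rw [finsum_mem_singleton, inv_inv] at h5
  have h6 : (Nat.card G : ℂ)⁻¹ ≠ 0 := inv_ne_zero (by exact_mod_cast Nat.card_pos.ne')
  have h7 : θ 1 ≠ 0 := Pool.Agent.Y930.NV.irr_one_ne h1
  exact (mul_eq_zero.1 ((mul_eq_zero.1 h5).resolve_left h6)).resolve_left h7

end two

end Pool.Agent.U259.UV
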